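import Pool.Agent.Y278.TopClique

set_option autoImplicit false

open Cardinal
open Pool.Agent.Y278.TopClique

namespace Pool.Agent.Results.MP_e76a7e_co.NoTopClique

/-- For every infinite cardinal `a` there is a graph whose chromatic number is exactly `a⁺` and
which contains no subdivision of the complete graph on `a⁺` vertices. -/
theorem result.{u} (a : Cardinal.{u}) (ha : ℵ₀ ≤ a) :
    ∃ (V : Type u) (G : SimpleGraph V),
      chi G = Order.succ a ∧ ¬ HasSubdivisionComplete G (Order.succ a) :=
  main' a ha

end Pool.Agent.Results.MP_e76a7e_co.NoTopClique
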